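import Pool.Agent.helper47.Vis.Defs

set_option autoImplicit false

/-!
# MP_6b3417_co, part III, module III-e: rationality lemma and nonlattice handled points
-/

namespace Pool.Agent.helper76.Vis

open Pool.Agent.helper47.Vis

/-- RL: the rationality lemma. -/
theorem RL (x : ℝ × ℝ) (w w' e e' : ℤ × ℤ) (τ τ' : ℝ) (hrow : w'.2 = w.2)
    (h1 : (w.1 : ℝ) - x.1 = τ * e.1) (h2 : (w.2 : ℝ) - x.2 = τ * e.2)
    (h3 : (w'.1 : ℝ) - x.1 = τ' * e'.1) (h4 : (w'.2 : ℝ) - x.2 = τ' * e'.2) :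
    τ * ((e.1 * e'.2 - e.2 * e'.1 : ℤ) : ℝ) = -(((w'.1 - w.1) * e'.2 : ℤ) : ℝ) ∧
    (∃ X : ℤ × ℤ, ((e.1 * e'.2 - e.2 * e'.1 : ℤ) : ℝ) * x.1 = X.1 ∧
      ((e.1 * e'.2 - e.2 * e'.1 : ℤ) : ℝ) * x.2 = X.2) := by
  have hrow' : (w'.2 : ℝ) = w.2 := by rw [hrow]
  have key : τ * ((e.1 : ℝ) * e'.2 - e.2 * e'.1) = -(((w'.1 : ℝ) - w.1) * e'.2) := by
    linear_combination (e'.2 : ℝ) * (h3 - h1) - (e'.1 : ℝ) * h4 + (e'.1 : ℝ) * h2 +
      (e'.1 : ℝ) * hrow'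
  refine ⟨by push_cast; exact key, ((e.1 * e'.2 - e.2 * e'.1) * w.1 + (w'.1 - w.1) * e'.2 * e.1,
    (e.1 * e'.2 - e.2 * e'.1) * w.2 + (w'.1 - w.1) * e'.2 * e.2), ?_, ?_⟩
  · push_cast
    linear_combination -((e.1 : ℝ) * e'.2 - e.2 * e'.1) * h1 - (e.1 : ℝ) * key
  · push_cast
    linear_combination -((e.1 : ℝ) * e'.2 - e.2 * e'.1) * h2 - (e.2 : ℝ) * key

section Aux

variable {M : ℕ} {G : Set (ℤ × ℤ)} {x : ℝ × ℝ}

/-- visibility of lattice points at primitive difference in the set with `x` added. -/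
lemma sees_corner (hxW : x ∉ convexHull ℝ (toR '' Box M)) {a b : ℤ × ℤ} (ha : a ∈ Box M)
    (hb : b ∈ Box M) (h : Int.gcd (b.1 - a.1) (b.2 - a.2) = 1) :
    Sees (insert x (toR '' G)) (toR a) (toR b) := by
  refine ⟨(sees_of_gcd_one G a b h).1, ?_⟩
  rintro r (rfl | hr)
  · intro hr
    apply hxW
    have h1 : toR a ∈ convexHull ℝ (toR '' Box M) := subset_convexHull ℝ _ ⟨a, ha, rfl⟩
    have h2 : toR b ∈ convexHull ℝ (toR '' Box M) := subset_convexHull ℝ _ ⟨b, hb, rfl⟩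
    exact (convex_convexHull ℝ _).openSegment_subset h1 h2 hr
  · exact (sees_of_gcd_one G a b h).2 r hr

/-- a unit square all of whose corners see `x` gives a `K₅`. -/
lemma square_K5 (hW : Box M ⊆ G) (hxW : x ∉ convexHull ℝ (toR '' Box M)) (w : ℤ × ℤ)
    (h1 : 0 ≤ w.1) (h2 : w.1 + 1 ≤ M) (h3 : 0 ≤ w.2) (h4 : w.2 + 1 ≤ M)
    (hs : ∀ ε₁ ε₂ : ℤ, (ε₁ = 0 ∨ ε₁ = 1) → (ε₂ = 0 ∨ ε₂ = 1) →
      Sees (insert x (toR '' G)) (toR (w.1 + ε₁, w.2 + ε₂)) x) :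
    ¬ K5free (insert x (toR '' G)) := by
  intro hK
  have hbox : ∀ ε₁ ε₂ : ℤ, (ε₁ = 0 ∨ ε₁ = 1) → (ε₂ = 0 ∨ ε₂ = 1) →
      (w.1 + ε₁, w.2 + ε₂) ∈ Box M := by
    intro ε₁ ε₂ hε₁ hε₂
    refine ⟨?_, ?_, ?_, ?_⟩ <;> rcases hε₁ with rfl | rfl <;> rcases hε₂ with rfl | rfl <;>
      simp only <;> omega
  have hm : ∀ ε₁ ε₂ : ℤ, (ε₁ = 0 ∨ ε₁ = 1) → (ε₂ = 0 ∨ ε₂ = 1) →
      toR (w.1 + ε₁, w.2 + ε₂) ∈ insert x (toR '' G) := fun ε₁ ε₂ hε₁ hε₂ =>
    Or.inr ⟨_, hW (hbox ε₁ ε₂ hε₁ hε₂), rfl⟩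
  have z : (0 : ℤ) = 0 ∨ (0 : ℤ) = 1 := Or.inl rfl
  have o : (1 : ℤ) = 0 ∨ (1 : ℤ) = 1 := Or.inr rfl
  refine hK.elim5 (hm 0 0 z z) (hm 1 0 o z) (hm 0 1 z o) (hm 1 1 o o) (Or.inl rfl)
    (sees_corner hxW (hbox 0 0 z z) (hbox 1 0 o z) ?_)
    (sees_corner hxW (hbox 0 0 z z) (hbox 0 1 z o) ?_)
    (sees_corner hxW (hbox 0 0 z z) (hbox 1 1 o o) ?_)
    (hs 0 0 z z)
    (sees_corner hxW (hbox 1 0 o z) (hbox 0 1 z o) ?_)
    (sees_corner hxW (hbox 1 0 o z) (hbox 1 1 o o) ?_)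
    (hs 1 0 o z)
    (sees_corner hxW (hbox 0 1 z o) (hbox 1 1 o o) ?_)
    (hs 0 1 z o) (hs 1 1 o o)
  · have e1 : w.1 + 1 - (w.1 + 0) = 1 := by ring
    have e2 : w.2 + 0 - (w.2 + 0) = 0 := by ring
    rw [e1, e2]; rfl
  · have e1 : w.1 + 0 - (w.1 + 0) = 0 := by ring
    have e2 : w.2 + 1 - (w.2 + 0) = 1 := by ring
    rw [e1, e2]; rfl
  · have e1 : w.1 + 1 - (w.1 + 0) = 1 := by ring
    have e2 : w.2 + 1 - (w.2 + 0) = 1 := by ring
    rw [e1, e2]; rfl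
  · have e1 : w.1 + 0 - (w.1 + 1) = -1 := by ring
    have e2 : w.2 + 1 - (w.2 + 0) = 1 := by ring
    rw [e1, e2]; rfl
  · have e1 : w.1 + 1 - (w.1 + 1) = 0 := by ring
    have e2 : w.2 + 1 - (w.2 + 0) = 1 := by ring
    rw [e1, e2]; rfl
  · have e1 : w.1 + 1 - (w.1 + 0) = 1 := by ring
    have e2 : w.2 + 1 - (w.2 + 1) = 0 := by ring
    rw [e1, e2]; rfl

/-- a blocked lattice point: the blocker. -/
lemma exists_blocker (hx : x ∉ Set.range toR) (c : ℤ × ℤ)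
    (hc : ¬ Sees (insert x (toR '' G)) (toR c) x) :
    ∃ e : ℤ × ℤ, ∃ τ : ℝ, 1 < |τ| ∧ (c.1 : ℝ) - x.1 = τ * e.1 ∧ (c.2 : ℝ) - x.2 = τ * e.2 := by
  have hne : toR c ≠ x := fun h => hx ⟨c, h⟩
  unfold Sees at hc
  push Not at hc
  obtain ⟨r, hr, hrs⟩ := hc hne
  rcases hr with rfl | ⟨g, -, rfl⟩
  · exfalso
    rw [right_mem_openSegment_iff] at hrs
    exact hne hrs
  · obtain ⟨s, t, hs, ht, hst, hg⟩ := hrs
    have hs1 : s = 1 - t := by linarith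
    subst hs1
    have ht1 : t < 1 := by linarith
    have g1 : (1 - t) * (c.1 : ℝ) + t * x.1 = g.1 := by
      have := congrArg Prod.fst hg; simpa using this
    have g2 : (1 - t) * (c.2 : ℝ) + t * x.2 = g.2 := by
      have := congrArg Prod.snd hg; simpa using this
    refine ⟨(g.1 - c.1, g.2 - c.2), -t⁻¹, ?_, ?_, ?_⟩
    · rw [abs_neg, abs_of_pos (inv_pos.mpr ht)]
      exact (one_lt_inv₀ ht).2 ht1
    · push_cast
      rw [← g1]
      field_simp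
      ring
    · push_cast
      rw [← g2]
      field_simp
      ring

/-- a lattice point seeing `X / N` with gcd at most two. -/
lemma sees_of_gcd {N : ℤ} {X : ℤ × ℤ} (hN : 2 ≤ N) (hx : x ∉ Set.range toR)
    (hX1 : (N : ℝ) * x.1 = X.1) (hX2 : (N : ℝ) * x.2 = X.2) (c : ℤ × ℤ)
    (hg : Int.gcd (X.1 - N * c.1) (X.2 - N * c.2) = 1 ∨
      Int.gcd (X.1 - N * c.1) (X.2 - N * c.2) = 2) :
    Sees (insert x (toR '' G)) (toR c) x := by
  have hne : toR c ≠ x := fun h => hx ⟨c, h⟩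
  refine ⟨hne, ?_⟩
  rintro r (rfl | ⟨g, -, rfl⟩) hrs
  · rw [right_mem_openSegment_iff] at hrs
    exact hne hrs
  · obtain ⟨s, t, hs, ht, hst, hgg⟩ := hrs
    have hs1 : s = 1 - t := by linarith
    subst hs1
    have ht1 : t < 1 := by linarith
    have g1 : (1 - t) * (c.1 : ℝ) + t * x.1 = g.1 := by
      have := congrArg Prod.fst hgg; simpa using this
    have g2 : (1 - t) * (c.2 : ℝ) + t * x.2 = g.2 := by
      have := congrArg Prod.snd hgg; simpa using this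
    set v1 : ℤ := X.1 - N * c.1 with hv1
    set v2 : ℤ := X.2 - N * c.2 with hv2
    have hbez := Int.gcd_eq_gcd_ab v1 v2
    set α := Int.gcdA v1 v2
    set β := Int.gcdB v1 v2
    set d : ℤ := (Int.gcd v1 v2 : ℤ) with hd
    have hd2 : d = 1 ∨ d = 2 := by
      rcases hg with h | h
      · left; rw [hd, h]; rfl
      · right; rw [hd, h]; rfl
    have hv1R : (v1 : ℝ) = N * (x.1 - c.1) := by
      rw [hv1]; push_cast; linear_combination -hX1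
    have hv2R : (v2 : ℝ) = N * (x.2 - c.2) := by
      rw [hv2]; push_cast; linear_combination -hX2
    have hkey : ((N * ((g.1 - c.1) * α + (g.2 - c.2) * β) : ℤ) : ℝ) = t * d := by
      rw [hbez]
      push_cast
      rw [hv1R, hv2R, ← g1, ← g2]
      ring
    have hdpos : (0 : ℝ) < d := by rcases hd2 with h | h <;> rw [h] <;> norm_num
    have hk1 : (0 : ℤ) < N * ((g.1 - c.1) * α + (g.2 - c.2) * β) := by
      have : (0 : ℝ) < ((N * ((g.1 - c.1) * α + (g.2 - c.2) * β) : ℤ) : ℝ) := by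
        rw [hkey]; positivity
      exact_mod_cast this
    have hk2 : N * ((g.1 - c.1) * α + (g.2 - c.2) * β) < d := by
      have : ((N * ((g.1 - c.1) * α + (g.2 - c.2) * β) : ℤ) : ℝ) < (d : ℝ) := by
        rw [hkey]; nlinarith
      exact_mod_cast this
    have hk3 : 0 < (g.1 - c.1) * α + (g.2 - c.2) * β := by
      by_contra hcon
      have : N * ((g.1 - c.1) * α + (g.2 - c.2) * β) ≤ 0 :=
        mul_nonpos_of_nonneg_of_nonpos (by omega) (by omega)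
      omega
    have hk4 : N ≤ N * ((g.1 - c.1) * α + (g.2 - c.2) * β) :=
      le_mul_of_one_le_right (by omega) (by omega)
    rcases hd2 with h | h <;> omega

/-- lowest terms. -/
lemma lowest_terms {D : ℤ} (hD : D ≠ 0) (hx : x ∉ Set.range toR) {X₀ : ℤ × ℤ}
    (h1 : (D : ℝ) * x.1 = X₀.1) (h2 : (D : ℝ) * x.2 = X₀.2) :
    ∃ N : ℤ, ∃ X : ℤ × ℤ, 2 ≤ N ∧ N ≤ |D| ∧ Int.gcd (Int.gcd X.1 X.2) N = 1 ∧
      (N : ℝ) * x.1 = X.1 ∧ (N : ℝ) * x.2 = X.2 := by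
  set g : ℕ := Int.gcd (Int.gcd X₀.1 X₀.2) D with hg
  have hg0 : g ≠ 0 := by
    rw [hg]
    intro h
    rw [Int.gcd_eq_zero_iff] at h
    exact hD h.2
  have hgD : (g : ℤ) ∣ D := Int.gcd_dvd_right _ _
  have hgX : (g : ℤ) ∣ (Int.gcd X₀.1 X₀.2 : ℤ) := Int.gcd_dvd_left _ _
  have hgX1 : (g : ℤ) ∣ X₀.1 := hgX.trans (Int.gcd_dvd_left _ _)
  have hgX2 : (g : ℤ) ∣ X₀.2 := hgX.trans (Int.gcd_dvd_right _ _)
  obtain ⟨N₁, hN₁⟩ := hgD
  obtain ⟨Y1, hY1⟩ := hgX1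
  obtain ⟨Y2, hY2⟩ := hgX2
  have hgR : (g : ℝ) ≠ 0 := by exact_mod_cast hg0
  have hcop : Int.gcd (Int.gcd Y1 Y2) N₁ = 1 := by
    have e : g = g * Int.gcd (Int.gcd Y1 Y2) N₁ := by
      conv_lhs => rw [hg, hN₁, hY1, hY2, Int.gcd_mul_left]
      simp only [Int.natAbs_natCast, Nat.cast_mul]
      rw [Int.gcd_mul_left]
      simp
    have : g * 1 = g * Int.gcd (Int.gcd Y1 Y2) N₁ := by rw [mul_one]; exact e
    exact (Nat.eq_of_mul_eq_mul_left (Nat.pos_of_ne_zero hg0) this).symm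
  have e1 : (N₁ : ℝ) * x.1 = Y1 := by
    have : (g : ℝ) * ((N₁ : ℝ) * x.1) = g * Y1 := by
      rw [← mul_assoc]
      have hDR : (D : ℝ) = g * N₁ := by rw [hN₁]; push_cast; ring
      have hXR : (X₀.1 : ℝ) = g * Y1 := by rw [hY1]; push_cast; ring
      rw [← hDR, h1, hXR]
    exact mul_left_cancel₀ hgR this
  have e2 : (N₁ : ℝ) * x.2 = Y2 := by
    have : (g : ℝ) * ((N₁ : ℝ) * x.2) = g * Y2 := by
      rw [← mul_assoc]
      have hDR : (D : ℝ) = g * N₁ := by rw [hN₁]; push_cast; ring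
      have hXR : (X₀.2 : ℝ) = g * Y2 := by rw [hY2]; push_cast; ring
      rw [← hDR, h2, hXR]
    exact mul_left_cancel₀ hgR this
  have hN₁0 : N₁ ≠ 0 := by
    rintro rfl
    apply hD
    rw [hN₁, mul_zero]
  have hN₁le : |N₁| ≤ |D| := by
    rw [hN₁, abs_mul]
    have : (1 : ℤ) ≤ |(g : ℤ)| := by
      rw [abs_of_nonneg (by positivity)]
      have := Nat.pos_of_ne_zero hg0
      exact_mod_cast this
    exact le_mul_of_one_le_left (abs_nonneg _) this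
  have hnot1 : |N₁| ≠ 1 := by
    intro h
    apply hx
    rcases (abs_eq (by norm_num : (0 : ℤ) ≤ 1)).1 h with h | h
    · rw [h] at e1 e2
      refine ⟨(Y1, Y2), Prod.ext ?_ ?_⟩
      · simp only [toR_fst]; rw [← e1]; push_cast; ring
      · simp only [toR_snd]; rw [← e2]; push_cast; ring
    · rw [h] at e1 e2
      refine ⟨(-Y1, -Y2), Prod.ext ?_ ?_⟩
      · simp only [toR_fst]; push_cast; rw [← e1]; push_cast; ring
      · simp only [toR_snd]; push_cast; rw [← e2]; push_cast; ring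
  rcases lt_or_gt_of_ne hN₁0 with hneg | hpos
  · have habs : |N₁| = -N₁ := abs_of_neg hneg
    refine ⟨-N₁, (-Y1, -Y2), ?_, ?_, ?_, ?_, ?_⟩
    · rw [habs] at hnot1; omega
    · rw [← habs]; exact hN₁le
    · simp only [Int.gcd_neg, Int.neg_gcd]
      exact hcop
    · push_cast; rw [← e1]; ring
    · push_cast; rw [← e2]; ring
  · have habs : |N₁| = N₁ := abs_of_pos hpos
    refine ⟨N₁, (Y1, Y2), ?_, ?_, hcop, e1, e2⟩
    · rw [habs] at hnot1; omega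
    · rw [← habs]; exact hN₁le

/-- two blocked points in a row which does not contain `x`. -/
lemma of_two_blocked {R K : ℕ} (hp : Par M R K) (hM : 5 ≤ M) (hW : Box M ⊆ G)
    (hx : x ∉ Set.range toR) (hxW : x ∉ convexHull ℝ (toR '' Box M)) (hxh : |x.2| ≤ 2 ^ K)
    (w w' : ℤ × ℤ) (hrow : w'.2 = w.2) (hne : w'.1 ≠ w.1) (hd : |w'.1 - w.1| ≤ 5)
    (h0 : 0 ≤ w.2) (hwM : w.2 ≤ M) (hw2 : (w.2 : ℝ) ≠ x.2)
    (hb : ¬ Sees (insert x (toR '' G)) (toR w) x)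
    (hb' : ¬ Sees (insert x (toR '' G)) (toR w') x) : ¬ K5free (insert x (toR '' G)) := by
  obtain ⟨e, τ, hτ, h1, h2⟩ := exists_blocker hx w hb
  obtain ⟨e', τ', hτ', h3, h4⟩ := exists_blocker hx w' hb'
  obtain ⟨hk, X₀, hX1, hX2⟩ := RL x w w' e e' τ τ' hrow h1 h2 h3 h4
  set D : ℤ := e.1 * e'.2 - e.2 * e'.1 with hD
  have hrow' : (w'.2 : ℝ) = w.2 := by rw [hrow]
  have he2 : (e'.2 : ℝ) ≠ 0 := by
    intro h
    rw [h, mul_zero, hrow'] at h4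
    exact hw2 (sub_eq_zero.1 h4)
  have hm0 : ((w'.1 - w.1 : ℤ) : ℝ) ≠ 0 := by
    exact_mod_cast sub_ne_zero.2 hne
  have hD0 : D ≠ 0 := by
    intro h
    rw [h] at hk
    push_cast at hk hm0
    rw [mul_zero, eq_comm, neg_eq_zero] at hk
    rcases mul_eq_zero.1 hk with h | h
    · exact hm0 h
    · exact he2 h
  have hMK : (M : ℝ) ≤ 2 ^ K := by
    have h5 := hp.D
    have h6 : M ≤ 10 ^ 6 * M ^ 10 := by
      calc M = 1 * M ^ 1 := by ring
        _ ≤ 10 ^ 6 * M ^ 10 := Nat.mul_le_mul (by norm_num) (Nat.pow_le_pow_right (by omega)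
          (by norm_num))
    exact_mod_cast h6.trans h5
  have hK32 : (32 : ℝ) ≤ 2 ^ K := by
    have h5 := hp.D
    have h6 : 32 ≤ 10 ^ 6 * M ^ 10 := by
      calc 32 ≤ 10 ^ 6 * 1 := by norm_num
        _ ≤ 10 ^ 6 * M ^ 10 := Nat.mul_le_mul_left _ (Nat.one_le_pow _ _ (by omega))
    exact_mod_cast h6.trans h5
  have hw2R : (0 : ℝ) ≤ w.2 ∧ (w.2 : ℝ) ≤ M := ⟨by exact_mod_cast h0, by exact_mod_cast hwM⟩
  have hx2 := abs_le.1 hxh
  -- the size of `e'.2`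
  have he2' : |(e'.2 : ℝ)| ≤ M + 2 ^ K := by
    have h5 : |(e'.2 : ℝ)| ≤ |τ'| * |(e'.2 : ℝ)| :=
      le_mul_of_one_le_left (abs_nonneg _) hτ'.le
    rw [← abs_mul, ← h4, hrow'] at h5
    refine h5.trans (abs_le.2 ⟨?_, ?_⟩) <;> linarith [hw2R.1, hw2R.2, hx2.1, hx2.2]
  have hDle : |(D : ℝ)| ≤ 5 * (M + 2 ^ K) := by
    have h5 : |(D : ℝ)| ≤ |τ| * |(D : ℝ)| := le_mul_of_one_le_left (abs_nonneg _) hτ.le
    rw [← abs_mul, hk, abs_neg] at h5
    push_cast at h5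
    rw [abs_mul] at h5
    have h6 : |(w'.1 : ℝ) - w.1| ≤ 5 := by exact_mod_cast hd
    calc |(D : ℝ)| ≤ |(w'.1 : ℝ) - w.1| * |(e'.2 : ℝ)| := h5
      _ ≤ 5 * (M + 2 ^ K) := mul_le_mul h6 he2' (abs_nonneg _) (by norm_num)
  obtain ⟨N, X, hN2, hND, hcop, hN1, hN2'⟩ := lowest_terms hD0 hx hX1 hX2
  have hNR : (N : ℝ) ≤ 5 * (M + 2 ^ K) := by
    have : (N : ℝ) ≤ |(D : ℝ)| := by exact_mod_cast hND
    exact this.trans hDle
  have hNpos : (2 : ℝ) ≤ N := by exact_mod_cast hN2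
  have hR1 : 1 ≤ R := by
    refine le_trans ?_ hp.sieve
    have := SQ_pos
    nlinarith
  have hMR := hp.MR
  -- the choice of the box
  obtain ⟨b₀, hb0, hb1, hb2⟩ : ∃ b₀ : ℤ, 0 ≤ b₀ ∧ b₀ + R ≤ 2 * R + 1 ∧
      ∀ c : ℤ, b₀ ≤ c → c ≤ b₀ + R → (c : ℝ) ≠ x.2 := by
    rcases le_or_gt x.2 R with h | h
    · refine ⟨R + 1, by omega, by omega, fun c hc _ => ?_⟩
      have : ((R : ℤ) + 1 : ℝ) ≤ c := by exact_mod_cast hc
      push_cast at this
      intro h'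
      linarith
    · refine ⟨0, le_rfl, by omega, fun c _ hc => ?_⟩
      have : (c : ℝ) ≤ R := by
        have : c ≤ (R : ℤ) := by omega
        exact_mod_cast this
      intro h'
      linarith
  obtain ⟨v, v1, v2, v3, v4, v5⟩ := SB R (8 * K) hp.sieve N X hcop 0 b₀ (Or.inr (by
    intro c hc1 hc2
    have hcR : ((X.2 - N * c : ℤ) : ℝ) = N * (x.2 - c) := by
      push_cast
      linear_combination -hN2'
    constructor
    · intro h
      rw [h, Int.cast_zero, eq_comm] at hcR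
      rcases mul_eq_zero.1 hcR with h | h
      · linarith
      · exact hb2 c hc1 hc2 (by linarith)
    · have hcM : (0 : ℝ) ≤ c ∧ (c : ℝ) ≤ M := by
        constructor
        · exact_mod_cast (show (0 : ℤ) ≤ c by omega)
        · exact_mod_cast (show c ≤ (M : ℤ) by omega)
      have h6 : |x.2 - c| ≤ M + 2 ^ K :=
        abs_le.2 ⟨by linarith [hcM.1, hcM.2, hx2.1], by linarith [hcM.1, hcM.2, hx2.2]⟩
      have h7 : |((X.2 - N * c : ℤ) : ℝ)| < 2 ^ (8 * K) := by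
        rw [hcR, abs_mul, abs_of_pos (by linarith : (0 : ℝ) < N)]
        have h8 : (M : ℝ) + 2 ^ K ≤ 2 * 2 ^ K := by linarith
        have h9 : (2 : ℝ) ^ (8 * K) = (2 ^ K) ^ 8 := by rw [← pow_mul, mul_comm]
        rw [h9]
        set y : ℝ := 2 ^ K with hy
        have hy0 : 0 < y := by positivity
        calc (N : ℝ) * |x.2 - c| ≤ (5 * (2 * y)) * (2 * y) :=
              mul_le_mul (hNR.trans (by linarith)) (h6.trans h8) (abs_nonneg _) (by positivity)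
          _ = 20 * y ^ 2 := by ring
          _ < y ^ 6 * y ^ 2 := by
              refine mul_lt_mul_of_pos_right ?_ (by positivity)
              calc (20 : ℝ) < 32 ^ 6 := by norm_num
                _ ≤ y ^ 6 := pow_le_pow_left₀ (by norm_num) hK32 6
          _ = y ^ 8 := by ring
      exact_mod_cast h7))
  refine square_K5 hW hxW v (by omega) (by omega) (by omega) (by omega) ?_
  intro ε₁ ε₂ hε₁ hε₂
  exact sees_of_gcd hN2 hx hN1 hN2' _ (v5 ε₁ ε₂ hε₁ hε₂)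

lemma Tprime_row {R K : ℕ} (hp : Par M R K) (hM : 5 ≤ M) (hW : Box M ⊆ G)
    (hx : x ∉ Set.range toR) (hxW : x ∉ convexHull ℝ (toR '' Box M)) (hxh : |x.2| ≤ 2 ^ K) :
    ¬ K5free (insert x (toR '' G)) := by
  obtain ⟨b, hb0, hb1, hb2, hb3⟩ : ∃ b : ℤ, 0 ≤ b ∧ b + 1 ≤ 3 ∧ (b : ℝ) ≠ x.2 ∧
      ((b + 1 : ℤ) : ℝ) ≠ x.2 := by
    by_cases h : x.2 = 0 ∨ x.2 = 1
    · refine ⟨2, by norm_num, by norm_num, ?_, ?_⟩ <;> rcases h with h | h <;> rw [h] <;> norm_num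
    · push Not at h
      refine ⟨0, le_rfl, by norm_num, ?_, ?_⟩
      · push_cast; exact h.1.symm
      · norm_num
        exact h.2.symm
  by_cases hsq : ∃ i : ℤ, 0 ≤ i ∧ i + 1 ≤ 5 ∧ ∀ ε₁ ε₂ : ℤ, (ε₁ = 0 ∨ ε₁ = 1) →
      (ε₂ = 0 ∨ ε₂ = 1) → Sees (insert x (toR '' G)) (toR (i + ε₁, b + ε₂)) x
  · obtain ⟨i, hi0, hi1, hi⟩ := hsq
    exact square_K5 hW hxW (i, b) hi0 (by simp only; omega) hb0 (by simp only; omega) hi
  · push Not at hsq
    obtain ⟨a₁, a₂, ha1, ha2, ha⟩ := hsq 0 (by norm_num) (by norm_num)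
    obtain ⟨c₁, c₂, hc1, hc2, hc⟩ := hsq 2 (by norm_num) (by norm_num)
    obtain ⟨d₁, d₂, hd1, hd2, hd⟩ := hsq 4 (by norm_num) (by norm_num)
    have hrow : ∀ ε : ℤ, (ε = 0 ∨ ε = 1) → ((b + ε : ℤ) : ℝ) ≠ x.2 := by
      rintro ε (rfl | rfl)
      · rw [add_zero]; exact hb2
      · exact hb3
    have key : ∀ i j p q r s : ℤ, (p = 0 ∨ p = 1) → (q = 0 ∨ q = 1) → (r = 0 ∨ r = 1) →
        q = s → 0 ≤ i → i + 2 ≤ j → j ≤ 4 →
        ¬ Sees (insert x (toR '' G)) (toR (i + p, b + q)) x →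
        ¬ Sees (insert x (toR '' G)) (toR (j + r, b + s)) x →
        ¬ K5free (insert x (toR '' G)) := by
      intro i j p q r s hp' hq hr hqs hi hij hj h1 h2
      refine of_two_blocked hp hM hW hx hxW hxh (i + p, b + q) (j + r, b + s) ?_ ?_ ?_ ?_ ?_ ?_
        h1 h2
      · simp only; omega
      · simp only; omega
      · simp only
        rw [abs_le]
        omega
      · simp only; omega
      · simp only; omega
      · exact hrow q hq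
    by_cases h1 : a₂ = c₂
    · exact key 0 2 a₁ a₂ c₁ c₂ ha1 ha2 hc1 h1 le_rfl (by norm_num) (by norm_num) ha hc
    · by_cases h2 : a₂ = d₂
      · exact key 0 4 a₁ a₂ d₁ d₂ ha1 ha2 hd1 h2 le_rfl (by norm_num) (by norm_num) ha hd
      · exact key 2 4 c₁ c₂ d₁ d₂ hc1 hc2 hd1 (by omega) (by norm_num) (by norm_num) (by norm_num)
          hc hd

end Aux

section Swap

lemma swap_openSegment {p q r : ℝ × ℝ} (h : r ∈ openSegment ℝ p q) :
    r.swap ∈ openSegment ℝ p.swap q.swap := by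
  obtain ⟨s, t, hs, ht, hst, rfl⟩ := h
  exact ⟨s, t, hs, ht, hst, rfl⟩

lemma sees_swap {P : Set (ℝ × ℝ)} {p q : ℝ × ℝ} (h : Sees P p q) :
    Sees (Prod.swap '' P) p.swap q.swap := by
  refine ⟨fun h' => h.1 (Prod.swap_injective h'), ?_⟩
  rintro _ ⟨r, hr, rfl⟩ hrs
  have := swap_openSegment hrs
  simp only [Prod.swap_swap] at this
  exact h.2 r hr this

lemma K5free_swap {P : Set (ℝ × ℝ)} (h : K5free P) : K5free (Prod.swap '' P) := by
  rintro ⟨f, hf, hs⟩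
  refine h ⟨fun i => (f i).swap, fun i => ?_, fun i j hij => ?_⟩
  · obtain ⟨r, hr, hri⟩ := hf i
    simp only
    rw [← hri, Prod.swap_swap]
    exact hr
  · have := sees_swap (hs i j hij)
    rwa [Set.image_image, show (fun x : ℝ × ℝ => x.swap.swap) = id from rfl, Set.image_id] at this

end Swap

/-- III.7: a handled point outside the window and not in the lattice creates a `K₅`. -/
theorem Tprime {M R K : ℕ} (hp : Par M R K) (hM : 5 ≤ M) (G : Set (ℤ × ℤ)) (hW : Box M ⊆ G)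
    (x : ℝ × ℝ) (hx : x ∉ Set.range toR) (hxW : x ∉ convexHull ℝ (toR '' Box M))
    (hxh : Handled K x) : ¬ K5free (insert x (toR '' G)) := by
  rcases hxh with h | h
  swap
  · exact Tprime_row hp hM hW hx hxW h
  · intro hK
    have hsw : Prod.swap '' (toR '' Box M) = toR '' Box M := by
      ext p
      constructor
      · rintro ⟨_, ⟨q, hq, rfl⟩, rfl⟩
        exact ⟨q.swap, ⟨hq.2.2.1, hq.2.2.2, hq.1, hq.2.1⟩, rfl⟩
      · rintro ⟨q, hq, rfl⟩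
        exact ⟨_, ⟨q.swap, ⟨hq.2.2.1, hq.2.2.2, hq.1, hq.2.1⟩, rfl⟩, rfl⟩
    have hconv : x.swap ∉ convexHull ℝ (toR '' Box M) := by
      intro hc
      apply hxW
      have h2 := LinearMap.image_convexHull
        ((LinearMap.snd ℝ ℝ ℝ).prod (LinearMap.fst ℝ ℝ ℝ)) (toR '' Box M)
      have h3 : ((LinearMap.snd ℝ ℝ ℝ).prod (LinearMap.fst ℝ ℝ ℝ) : ℝ × ℝ → ℝ × ℝ) =
        Prod.swap := rfl
      rw [h3, hsw] at h2
      rw [← h2] at hc
      obtain ⟨y, hy, hyx⟩ := hc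
      rwa [← Prod.swap_injective hyx]
    refine Tprime_row (G := Prod.swap '' G) (x := x.swap) hp hM ?_ ?_ hconv h ?_
    · intro q hq
      exact ⟨q.swap, hW ⟨hq.2.2.1, hq.2.2.2, hq.1, hq.2.1⟩, rfl⟩
    · rintro ⟨q, hq⟩
      refine hx ⟨q.swap, ?_⟩
      have := congrArg Prod.swap hq
      rw [Prod.swap_swap] at this
      rw [← this]
      rfl
    · have h1 := K5free_swap hK
      rw [Set.image_insert_eq] at h1
      have h2 : Prod.swap '' (toR '' G) = toR '' (Prod.swap '' G) := by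
        rw [Set.image_image, Set.image_image]
        rfl
      rwa [h2] at h1

end Pool.Agent.helper76.Vis
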